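import Pool.Agent.Q231.RBUnNP

/-!
# The unweighted red-blue s-t cut problem in undirected graphs is NP-complete

An undirected graph whose edges are coloured red or blue is given by the list `V` of its vertices
and the list `E` of its edges `(end, end, colour)`; the question is whether some set `X` of vertices
contains `s` but not `t` and has at most `r` red and at most `b` blue edges in `δ(X)`.

The reduction is from CLIQUE.  A vertex `v` of the graph is joined to `s` by a red edge, so that the
red budget `n - k` forces at least `k` of the `n` vertices to the side of `s`; a large red complete
graph contains `t`, so all its vertices lie on the side of `t`; and the blue edges, from the vertices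
of the given graph to one another and to this block, make the number of blue cut edges equal to
`2 n |Y| - 2 e(Y)`, where `Y` is the set of vertices on the side of `s`.
-/

set_option autoImplicit false

namespace Pool.Agent.Results.MP_ad21dd_lc.UnweightedCutNPComplete

open Pool.Agent.NPC Pool.Agent.Q231.RBUn

/-- **The unweighted undirected red-blue `s`-`t` cut problem is NP-complete**: it is in `NP` and it is
`NP`-hard. It stays `NP`-hard for simple graphs, without loops and without parallel edges (third
part). In particular it is solvable in polynomial time if and only if `P = NP` (last part). -/
theorem result :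
    InNPP RedBlueCut ∧ NPHardP RedBlueCut ∧
    (∀ L : Set (List Bool), InNP L → ∃ f : List Bool → Inst, PolyTime (fun x => bits (f x)) ∧
      (∀ x, SimpleInst (f x)) ∧ ∀ x, x ∈ L ↔ RedBlueCut (f x)) ∧
    (InPP RedBlueCut ↔ ∀ L : Set (List Bool), InNP L → InP L) := by
  refine ⟨inNP, hardPr.toHardI.toNPHardP, fun L hL => ?_, ⟨fun h => ?_, fun h => h _ inNP⟩⟩
  · obtain ⟨f, hf, h1, h2⟩ := hardPr L hL
    exact ⟨f, PC.toPolyTime hf, h1, h2⟩
  · exact NPHard.collapse hardPr.toHardI.toNPHardP h

end Pool.Agent.Results.MP_ad21dd_lc.UnweightedCutNPComplete
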